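import Pool.Agent.R804.TK.Defs

set_option autoImplicit false

/-! # Project TK (helper804): the recursion for Johnson graphs -/

namespace Pool.Agent.R111.TK

open Pool.Agent.R553.HW Pool.Agent.R804.TK

section
variable {V : Type}

/-- replace `a` by `b` -/
def sw (S : Set V) (a b : V) : Set V := insert b (S \ {a})

lemma sw_ncard [Finite V] (S : Set V) (a b : V) (ha : a ∈ S) (hb : b ∉ S) :
    (sw S a b).ncard = S.ncard := by
  unfold sw
  rw [Set.ncard_insert_of_notMem (fun h => hb h.1) (Set.toFinite _)]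
  exact Set.ncard_diff_singleton_add_one ha (Set.toFinite _)

lemma sw_diff (S : Set V) (a b : V) (ha : a ∈ S) (hb : b ∉ S) : S \ sw S a b = {a} := by
  ext x
  unfold sw
  simp only [Set.mem_diff, Set.mem_insert_iff, Set.mem_singleton_iff]
  constructor
  · rintro ⟨h1, h2⟩
    by_contra h3
    exact h2 (Or.inr ⟨h1, h3⟩)
  · rintro rfl
    refine ⟨ha, ?_⟩
    rintro (h | h)
    · exact hb (h ▸ ha)
    · exact h.2 rfl

lemma sw_diff' (S : Set V) (a b : V) (hb : b ∉ S) : sw S a b \ S = {b} := by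
  ext x
  unfold sw
  simp only [Set.mem_diff, Set.mem_insert_iff, Set.mem_singleton_iff]
  constructor
  · rintro ⟨h1 | h1, h2⟩
    · exact h1
    · exact absurd h1.1 h2
  · rintro rfl
    exact ⟨Or.inl rfl, hb⟩

lemma sw_adj [Finite V] (k : ℕ) (S : {S : Set V // S.ncard = k}) (a b : V) (ha : a ∈ S.1)
    (hb : b ∉ S.1) : (tok k (⊤ : SimpleGraph V)).Adj S
      ⟨sw S.1 a b, (sw_ncard S.1 a b ha hb).trans S.2⟩ := by
  refine ⟨a, b, ?_, sw_diff _ _ _ ha hb, sw_diff' _ _ _ hb⟩
  rw [SimpleGraph.top_adj]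
  intro h
  exact hb (h ▸ ha)

/-- the sets containing `v` -/
def DD (v : V) (k : ℕ) : Set {S : Set V // S.ncard = k} := {S | v ∈ S.1}

lemma DD_reach [Finite V] (v : V) (k : ℕ) (T : {S : Set V // S.ncard = k}) (hT : T ∈ DD v k) :
    ∀ (n : ℕ) (S : {S : Set V // S.ncard = k}) (hS : S ∈ DD v k), (S.1 \ T.1).ncard = n →
      ((tok k (⊤ : SimpleGraph V)).induce (DD v k)).Reachable ⟨S, hS⟩ ⟨T, hT⟩ := by
  intro n
  induction n with
  | zero =>
    intro S hS hn
    rw [Set.ncard_eq_zero (Set.toFinite _), Set.diff_eq_empty] at hn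
    have : S.1 = T.1 := Set.eq_of_subset_of_ncard_le hn (by rw [S.2, T.2]) (Set.toFinite _)
    have : S = T := Subtype.ext this
    subst this
    exact SimpleGraph.Reachable.refl _
  | succ n ih =>
    intro S hS hn
    have h1 : (S.1 \ T.1).Nonempty := by
      rw [Set.nonempty_iff_ne_empty]
      intro h
      rw [h, Set.ncard_empty] at hn
      omega
    obtain ⟨a, ha, haT⟩ := h1
    have h2 : (T.1 \ S.1).Nonempty := by
      by_contra h
      rw [Set.not_nonempty_iff_eq_empty, Set.diff_eq_empty] at h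
      have : T.1 = S.1 := Set.eq_of_subset_of_ncard_le h (by rw [S.2, T.2]) (Set.toFinite _)
      rw [this] at haT
      exact haT ha
    obtain ⟨b, hb, hbS⟩ := h2
    have hadj := sw_adj k S a b ha hbS
    have hv : v ∈ sw S.1 a b := by
      refine Or.inr ⟨hS, ?_⟩
      intro h
      rw [Set.mem_singleton_iff] at h
      exact haT (h ▸ hT)
    have h3 : (sw S.1 a b \ T.1).ncard = n := by
      have e : sw S.1 a b \ T.1 = (S.1 \ T.1) \ {a} := by
        ext x
        unfold sw
        simp only [Set.mem_diff, Set.mem_insert_iff, Set.mem_singleton_iff]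
        constructor
        · rintro ⟨h4 | h4, h5⟩
          · exact absurd (h4 ▸ hb) h5
          · exact ⟨⟨h4.1, h5⟩, h4.2⟩
        · rintro ⟨⟨h4, h5⟩, h6⟩
          exact ⟨Or.inr ⟨h4, h6⟩, h5⟩
      have h4 := Set.ncard_diff_singleton_add_one (show a ∈ S.1 \ T.1 from ⟨ha, haT⟩)
        (Set.toFinite _)
      rw [e]
      omega
    refine SimpleGraph.Reachable.trans ?_
      (ih ⟨sw S.1 a b, (sw_ncard S.1 a b ha hbS).trans S.2⟩ hv h3)
    exact SimpleGraph.Adj.reachable hadj

lemma DD_conn [Finite V] (v : V) (k : ℕ) (hk : 1 ≤ k) (hk2 : k + 1 ≤ Nat.card V) :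
    ((tok k (⊤ : SimpleGraph V)).induce (DD v k)).Connected := by
  rw [SimpleGraph.connected_iff]
  refine ⟨?_, ?_⟩
  · rintro ⟨S, hS⟩ ⟨T, hT⟩
    exact DD_reach v k T hT _ S hS rfl
  · have h1 : k - 1 ≤ ((Set.univ : Set V) \ {v}).ncard := by
      have h2 := Set.ncard_diff_singleton_add_one (Set.mem_univ v) (Set.toFinite _)
      rw [Set.ncard_univ] at h2
      omega
    obtain ⟨S, hS, hSc⟩ := Set.exists_subset_card_eq h1
    have hv : v ∉ S := fun h => (hS h).2 rfl
    refine ⟨⟨⟨insert v S, ?_⟩, Set.mem_insert v S⟩⟩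
    rw [Set.ncard_insert_of_notMem hv (Set.toFinite _), hSc]
    omega

end

theorem JOH : S_JOH := by
  intro V _ v k m hk hk2 h
  obtain ⟨f, h1, h2, h3⟩ := h
  obtain ⟨lift, hlift⟩ : ∃ lift : {S : Set {x : V | x ≠ v} // S.ncard = k} →
      {S : Set V // S.ncard = k}, ∀ S, (lift S).1 = Subtype.val '' S.1 :=
    ⟨fun S => ⟨Subtype.val '' S.1, by
      rw [Set.ncard_image_of_injective _ Subtype.val_injective]; exact S.2⟩, fun _ => rfl⟩
  have hinj : Function.Injective lift := by
    intro S T hST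
    have h4 : (lift S).1 = (lift T).1 := by rw [hST]
    rw [hlift, hlift] at h4
    exact Subtype.ext (Subtype.val_injective.image_injective h4)
  have hadj : ∀ S T, (tok k ((⊤ : SimpleGraph V).induce {x | x ≠ v})).Adj S T →
      (tok k (⊤ : SimpleGraph V)).Adj (lift S) (lift T) := by
    rintro S T ⟨a, b, hab, e1, e2⟩
    refine ⟨a.1, b.1, hab, ?_, ?_⟩
    · rw [hlift, hlift, ← Set.image_diff Subtype.val_injective, e1, Set.image_singleton]
    · rw [hlift, hlift, ← Set.image_diff Subtype.val_injective, e2, Set.image_singleton]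
  have hvn : ∀ S, v ∉ (lift S).1 := by
    intro S hS
    rw [hlift] at hS
    obtain ⟨x, _, hx⟩ := hS
    exact x.2 hx
  have hcn : ∀ i, ((tok k (⊤ : SimpleGraph V)).induce (lift '' f i)).Connected := by
    intro i
    let φ : (tok k ((⊤ : SimpleGraph V).induce {x | x ≠ v})).induce (f i) →g
        (tok k (⊤ : SimpleGraph V)).induce (lift '' f i) :=
      { toFun := fun x => ⟨lift x.1, ⟨x.1, x.2, rfl⟩⟩
        map_rel' := fun {a b} hab => hadj _ _ hab }
    refine SimpleGraph.Connected.map φ ?_ (h1 i)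
    rintro ⟨_, ⟨x, hx, rfl⟩⟩
    exact ⟨⟨x, hx⟩, rfl⟩
  have hD : ∀ i, ∃ S ∈ DD v k, ∃ T ∈ lift '' f i, (tok k (⊤ : SimpleGraph V)).Adj S T := by
    intro i
    obtain ⟨⟨S, hS⟩⟩ := (h1 i).nonempty
    have hne : (lift S).1.Nonempty := by
      rw [Set.nonempty_iff_ne_empty]
      intro h
      have := (lift S).2
      rw [h, Set.ncard_empty] at this
      omega
    obtain ⟨a, ha⟩ := hne
    exact ⟨_, Or.inl rfl, lift S, ⟨S, hS, rfl⟩, (sw_adj k (lift S) a v ha (hvn S)).symm⟩
  have key : CMt (tok k (⊤ : SimpleGraph V)) (Option (Fin m)) := by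
    refine ⟨fun o => Option.elim o (DD v k) (fun i => lift '' f i), ?_, ?_, ?_⟩
    · rintro (_ | i)
      · exact DD_conn v k hk hk2
      · exact hcn i
    · rintro (_ | i) (_ | j) hij
      · exact absurd rfl hij
      · rw [Set.disjoint_left]
        rintro S hS ⟨T, _, rfl⟩
        exact hvn T hS
      · rw [Set.disjoint_left]
        rintro S ⟨T, _, rfl⟩ hS
        exact hvn T hS
      · have hij' : i ≠ j := fun h => hij (by rw [h])
        exact (Set.disjoint_image_iff hinj).2 (h2 i j hij')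
    · rintro (_ | i) (_ | j) hij
      · exact absurd rfl hij
      · obtain ⟨S, hS, T, hT, hST⟩ := hD j
        exact ⟨S, hS, T, hT, hST⟩
      · obtain ⟨S, hS, T, hT, hST⟩ := hD i
        exact ⟨T, hT, S, hS, hST.symm⟩
      · have hij' : i ≠ j := fun h => hij (by rw [h])
        obtain ⟨S, hS, T, hT, hST⟩ := h3 i j hij'
        exact ⟨lift S, ⟨S, hS, rfl⟩, lift T, ⟨T, hT, rfl⟩, hadj _ _ hST⟩
  exact CMt_of_card key (by simp)

end Pool.Agent.R111.TK
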